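import Pool.Agent.K1H98.RM.Stm

/-!
Piece GOOD: the variance from the correlations on a grid (adaptation of `Pool.Agent.K1H54.GC.Det`,
`Pool.Agent.K1H54.GC.Fin`, `Pool.Agent.K1H54.GC.Fin2` to real sequences).
-/

set_option autoImplicit false

namespace Pool.Agent.K1H1.RM

open Finset Pool.Agent.K1H98.RM

variable (a : ℕ → ℝ)

lemma DD_succ (u j : ℕ) : DD a u (j + 1) = DD a u j + a (u + j + 1) := by
  unfold DD
  rw [show u + (j + 1) = u + j + 1 by ring, ← Finset.insert_Ioc_right_eq_Ioc_add_one (by omega),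
    Finset.sum_insert (by simp), add_comm]

lemma II_succ (U1 U2 j : ℕ) : II a U1 U2 (j + 1) =
    II a U1 U2 j + ∑ u ∈ Ico U1 U2, a (u + j + 1) ^ 2 + 2 * ZZ a U1 U2 j := by
  unfold II ZZ
  rw [Finset.mul_sum, ← Finset.sum_add_distrib, ← Finset.sum_add_distrib]
  refine Finset.sum_congr rfl fun u _ => ?_
  rw [DD_succ]
  ring

lemma II_zero (U1 U2 : ℕ) : II a U1 U2 0 = 0 := by
  unfold II DD
  simp

lemma ZZ_zero (U1 U2 : ℕ) : ZZ a U1 U2 0 = 0 := by
  unfold ZZ DD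
  simp

lemma II_eq (U1 U2 j : ℕ) : II a U1 U2 j =
    ∑ i ∈ range j, ∑ u ∈ Ico U1 U2, a (u + i + 1) ^ 2 + 2 * ∑ i ∈ range j, ZZ a U1 U2 i := by
  induction j with
  | zero => simp [II_zero]
  | succ j ih =>
    rw [II_succ, ih, Finset.sum_range_succ, Finset.sum_range_succ]
    ring

theorem t_DET (U1 U2 J : ℕ) (L : ℝ) (hL : 0 ≤ L) (h : QQ a U1 U2 J ≤ L ^ 2) (j : ℕ) (hj : j ≤ J + 1) :
    |II a U1 U2 j - ∑ i ∈ range j, ∑ u ∈ Ico U1 U2, a (u + i + 1) ^ 2| ≤ 2 * (j * L) := by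
  rw [II_eq]
  rw [add_sub_cancel_left, abs_mul, abs_two]
  gcongr
  rcases Nat.eq_zero_or_pos j with rfl | hj0
  · simp
  have h1 : ∑ i ∈ range j, ZZ a U1 U2 i = ∑ i ∈ Icc 1 (j - 1), ZZ a U1 U2 i := by
    have : range j = insert 0 (Icc 1 (j - 1)) := by
      ext i
      simp only [Finset.mem_range, Finset.mem_insert, Finset.mem_Icc]
      omega
    rw [this, Finset.sum_insert (by simp), ZZ_zero]
    simp
  rw [h1]
  have h2 : |∑ i ∈ Icc 1 (j - 1), ZZ a U1 U2 i| ≤ ∑ i ∈ Icc 1 (j - 1), |ZZ a U1 U2 i| :=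
    Finset.abs_sum_le_sum_abs _ _
  refine h2.trans ?_
  have h3 : (∑ i ∈ Icc 1 (j - 1), |ZZ a U1 U2 i|) ^ 2 ≤
      (∑ i ∈ Icc 1 (j - 1), (i : ℝ)) * ∑ i ∈ Icc 1 (j - 1), ZZ a U1 U2 i ^ 2 / i := by
    have := Finset.sum_sq_le_sum_mul_sum_of_sq_le_mul (Icc 1 (j - 1))
      (r := fun i : ℕ => |ZZ a U1 U2 i|) (f := fun i : ℕ => (i : ℝ))
      (g := fun i : ℕ => ZZ a U1 U2 i ^ 2 / i) (fun i _ => Nat.cast_nonneg i)
      (fun i _ => by positivity) (fun i hi => ?_)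
    · exact this
    · have : (1 : ℝ) ≤ i := by exact_mod_cast (Finset.mem_Icc.1 hi).1
      refine le_of_eq ?_
      rw [sq_abs]
      field_simp
  have h4 : ∑ i ∈ Icc 1 (j - 1), (i : ℝ) ≤ (j : ℝ) ^ 2 := by
    calc ∑ i ∈ Icc 1 (j - 1), (i : ℝ) ≤ ∑ i ∈ Icc 1 (j - 1), (j : ℝ) := by
          refine Finset.sum_le_sum fun i hi => ?_
          have := (Finset.mem_Icc.1 hi).2
          exact_mod_cast (by omega : i ≤ j)
      _ = ((j - 1 : ℕ) : ℝ) * j := by simp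
      _ ≤ (j : ℝ) * j := by gcongr; omega
      _ = (j : ℝ) ^ 2 := by ring
  have h5 : ∑ i ∈ Icc 1 (j - 1), ZZ a U1 U2 i ^ 2 / i ≤ L ^ 2 := by
    refine le_trans (Finset.sum_le_sum_of_subset_of_nonneg ?_ ?_) h
    · exact Finset.Icc_subset_Icc_right (by omega)
    · intro i _ _
      positivity
  have h6 : (∑ i ∈ Icc 1 (j - 1), |ZZ a U1 U2 i|) ^ 2 ≤ (j * L) ^ 2 := by
    refine h3.trans ?_
    rw [mul_pow]
    exact mul_le_mul h4 h5 (Finset.sum_nonneg fun i _ => by positivity) (by positivity)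
  exact abs_le_of_sq_le_sq' h6 (by positivity) |>.2

variable {a}

lemma diag (ha : ∀ n, a n ^ 2 = if Squarefree n then 1 else 0) (U1 U2 j : ℕ) :
    ∑ i ∈ range j, ∑ u ∈ Ico U1 U2, a (u + i + 1) ^ 2 =
      ∑ i ∈ range j, (((Ioc (U1 + i) (U2 + i)).filter (fun n => Squarefree n)).card : ℝ) := by
  refine Finset.sum_congr rfl fun i hi => ?_
  rw [Finset.mem_range] at hi
  rw [Finset.card_filter]
  push_cast
  refine Finset.sum_nbij' (fun u => u + i + 1) (fun n => n - i - 1) ?_ ?_ ?_ ?_ ?_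
  · intro u hu
    rw [Finset.mem_Ico] at hu
    rw [Finset.mem_Ioc]
    omega
  · intro n hn
    rw [Finset.mem_Ioc] at hn
    rw [Finset.mem_Ico]
    omega
  · intro u _
    omega
  · intro n hn
    rw [Finset.mem_Ioc] at hn
    omega
  · intro u hu
    rw [ha]

lemma II_near (ha : ∀ n, a n ^ 2 = if Squarefree n then 1 else 0) {C1 : ℝ}
    (hS : ∀ A B : ℕ, A ≤ B →
      |(((Ioc A B).filter (fun n => Squarefree n)).card : ℝ) - 6 / Real.pi ^ 2 * ((B : ℝ) - A)| ≤ C1 * √(B : ℝ))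
    {U1 U2 J N : ℕ} {L : ℝ} (hU : U1 ≤ U2) (hL : 0 ≤ L) (hQ : QQ a U1 U2 J ≤ L ^ 2) {j : ℕ} (hj : j ≤ J + 1)
    (hN : U2 + j ≤ 9 * N) (hC : 0 ≤ C1) (hNL : √(N : ℝ) ≤ L) :
    |II a U1 U2 j - 6 / Real.pi ^ 2 * (j * ((U2 : ℝ) - U1))| ≤ j * ((2 + 3 * C1) * L) := by
  have h1 := t_DET a U1 U2 J L hL hQ j hj
  rw [diag ha U1 U2 j] at h1
  have h2 : |∑ i ∈ range j, (((Ioc (U1 + i) (U2 + i)).filter (fun n => Squarefree n)).card : ℝ) -
      6 / Real.pi ^ 2 * (j * ((U2 : ℝ) - U1))| ≤ j * (3 * C1 * L) := by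
    have e : 6 / Real.pi ^ 2 * (j * ((U2 : ℝ) - U1)) = ∑ i ∈ range j, 6 / Real.pi ^ 2 * ((U2 : ℝ) - U1) := by
      rw [Finset.sum_const, Finset.card_range, nsmul_eq_mul]; ring
    rw [e, ← Finset.sum_sub_distrib]
    refine (Finset.abs_sum_le_sum_abs _ _).trans ?_
    calc _ ≤ ∑ i ∈ range j, (3 * C1 * L) := by
          refine Finset.sum_le_sum fun i hi => ?_
          rw [Finset.mem_range] at hi
          have h3 := hS (U1 + i) (U2 + i) (by omega)
          have e2 : ((U2 + i : ℕ) : ℝ) - ((U1 + i : ℕ) : ℝ) = (U2 : ℝ) - U1 := by push_cast; ring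
          rw [e2] at h3
          refine h3.trans ?_
          have h4 : √((U2 + i : ℕ) : ℝ) ≤ 3 * L := by
            calc √((U2 + i : ℕ) : ℝ) ≤ √(9 * N : ℝ) := by
                  apply Real.sqrt_le_sqrt
                  exact_mod_cast (by omega : U2 + i ≤ 9 * N)
              _ = 3 * √(N : ℝ) := by
                  rw [Real.sqrt_mul (by norm_num), show (9 : ℝ) = 3 ^ 2 by norm_num, Real.sqrt_sq (by norm_num)]
              _ ≤ 3 * L := by linarith
          calc C1 * √((U2 + i : ℕ) : ℝ) ≤ C1 * (3 * L) := by gcongr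
            _ = _ := by ring
      _ = _ := by rw [Finset.sum_const, Finset.card_range, nsmul_eq_mul]
  calc _ = |(II a U1 U2 j - ∑ i ∈ range j, (((Ioc (U1 + i) (U2 + i)).filter (fun n => Squarefree n)).card : ℝ)) +
        (∑ i ∈ range j, (((Ioc (U1 + i) (U2 + i)).filter (fun n => Squarefree n)).card : ℝ) -
      6 / Real.pi ^ 2 * (j * ((U2 : ℝ) - U1)))| := by congr 1; ring
    _ ≤ 2 * (j * L) + j * (3 * C1 * L) := (abs_add_le _ _).trans (add_le_add h1 h2)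
    _ = _ := by ring

/-- the mixture of the two lengths -/
noncomputable def mix (a : ℕ → ℝ) (U1 U2 : ℕ) (H : ℝ) : ℝ :=
  (1 - Int.fract H) * II a U1 U2 ⌊H⌋₊ + Int.fract H * II a U1 U2 (⌊H⌋₊ + 1)

lemma mix_near (ha : ∀ n, a n ^ 2 = if Squarefree n then 1 else 0) {C1 : ℝ}
    (hS : ∀ A B : ℕ, A ≤ B →
      |(((Ioc A B).filter (fun n => Squarefree n)).card : ℝ) - 6 / Real.pi ^ 2 * ((B : ℝ) - A)| ≤ C1 * √(B : ℝ))
    {U1 U2 J N : ℕ} {L H : ℝ} (hU : U1 ≤ U2) (hL : 0 ≤ L) (hQ : QQ a U1 U2 J ≤ L ^ 2) (hH : 1 ≤ H)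
    (hj : ⌊H⌋₊ ≤ J) (hN : U2 + (⌊H⌋₊ + 1) ≤ 9 * N) (hC : 0 ≤ C1)
    (hNL : √(N : ℝ) ≤ L) :
    |mix a U1 U2 H - 6 / Real.pi ^ 2 * (H * ((U2 : ℝ) - U1))| ≤ 2 * H * ((2 + 3 * C1) * L) := by
  have h1 := II_near ha hS hU hL hQ (j := ⌊H⌋₊) (by omega) (N := N) (by omega) hC hNL
  have h2 := II_near ha hS hU hL hQ (j := ⌊H⌋₊ + 1) (by omega) hN hC hNL
  have hf0 := Int.fract_nonneg H
  have hf1 := (Int.fract_lt_one H).le
  have hfl : (⌊H⌋₊ : ℝ) + Int.fract H = H := by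
    have : ((⌊H⌋₊ : ℕ) : ℝ) = (⌊H⌋ : ℝ) := by
      rw [← Int.natCast_floor_eq_floor (by linarith)]; simp
    rw [this]; exact Int.floor_add_fract H
  obtain ⟨j, hjd⟩ : ∃ j : ℕ, j = ⌊H⌋₊ := ⟨_, rfl⟩
  unfold mix
  rw [← hjd] at h1 h2 hfl ⊢
  obtain ⟨θ, hθ⟩ : ∃ θ, θ = Int.fract H := ⟨_, rfl⟩
  rw [← hθ] at hf0 hf1 hfl ⊢
  have hjH : (j : ℝ) ≤ H := by linarith
  set D := (2 + 3 * C1) * L with hD
  have hD0 : 0 ≤ D := by positivity
  set c := 6 / Real.pi ^ 2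
  set w := (U2 : ℝ) - U1
  push_cast at h2
  have e : (1 - θ) * II a U1 U2 j + θ * II a U1 U2 (j + 1) - c * (H * w) =
      (1 - θ) * (II a U1 U2 j - c * (j * w)) + θ * (II a U1 U2 (j + 1) - c * ((j + 1) * w)) := by
    rw [← hfl]; ring
  rw [e]
  calc |(1 - θ) * (II a U1 U2 j - c * (j * w)) + θ * (II a U1 U2 (j + 1) - c * ((j + 1) * w))|
      ≤ |(1 - θ) * (II a U1 U2 j - c * (j * w))| + |θ * (II a U1 U2 (j + 1) - c * ((j + 1) * w))| := abs_add_le _ _
    _ = (1 - θ) * |II a U1 U2 j - c * (j * w)| + θ * |II a U1 U2 (j + 1) - c * ((j + 1) * w)| := by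
        rw [abs_mul, abs_mul, abs_of_nonneg hf0, abs_of_nonneg (by linarith : (0 : ℝ) ≤ 1 - θ)]
    _ ≤ (1 - θ) * (j * D) + θ * ((j + 1) * D) := by
        have : (0 : ℝ) ≤ 1 - θ := by linarith
        gcongr
    _ = (j + θ) * D := by ring
    _ = H * D := by rw [hfl]
    _ ≤ 2 * H * D := by nlinarith

lemma c_le : 6 / Real.pi ^ 2 ≤ 1 := by
  rw [div_le_one (by positivity)]
  nlinarith [Real.pi_gt_three]

/-- **Piece GOOD.** -/
theorem t_GOOD (hSand : S_SAND) : S_GOOD := by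
  intro C1 hC hS s ha N g J L X H hN hg hgN hgL hNL hX1 hX2 hH hHX hJ hQ
  have hN' : (1 : ℝ) ≤ N := by exact_mod_cast hN
  have hg' : (1 : ℝ) ≤ g := by exact_mod_cast hg
  have hgN' : (g : ℝ) ≤ N := by exact_mod_cast hgN
  have hL : 0 ≤ L := by linarith
  have hX0 : 0 < X := by linarith
  have hfl : (⌊H⌋₊ : ℝ) ≤ H := Nat.floor_le (by linarith)
  have hfl2 : ⌊H⌋₊ ≤ 2 * N := by
    have : (⌊H⌋₊ : ℝ) ≤ 2 * N := by linarith
    exact_mod_cast this
  have hg0 : (0 : ℝ) < g := by linarith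
  have hc := c_le
  have hc0 : 0 ≤ 6 / Real.pi ^ 2 := by positivity
  have hXV : X * VV s X H = ∫ x in X..2 * X, MM s x H ^ 2 := by
    unfold VV; field_simp
  rw [hXV]
  set c := 6 / Real.pi ^ 2
  have hD : 2 * H * ((2 + 3 * C1) * L) = (4 + 6 * C1) * (H * L) := by ring
  have hHL : 0 ≤ H * L := by positivity
  have hHg : H * g ≤ H * L := by gcongr
  -- upper bound
  have hup : ∫ x in X..2 * X, MM s x H ^ 2 ≤ c * (H * X) + (6 + 6 * C1) * (H * L) := by
    obtain ⟨a, ha'⟩ : ∃ a, a = ⌊(X - H / 2) / g⌋₊ := ⟨_, rfl⟩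
    obtain ⟨b, hb⟩ : ∃ b, b = ⌈(2 * X - H / 2) / g⌉₊ := ⟨_, rfl⟩
    have ha1 : (a : ℝ) ≤ (X - H / 2) / g := by
      rw [ha']; exact Nat.floor_le (div_nonneg (by linarith) hg0.le)
    have ha2 : (X - H / 2) / g < a + 1 := by rw [ha']; exact Nat.lt_floor_add_one _
    have hb1 : (2 * X - H / 2) / g ≤ b := by rw [hb]; exact Nat.le_ceil _
    have hb2 : (b : ℝ) < (2 * X - H / 2) / g + 1 := by
      rw [hb]; exact Nat.ceil_lt_add_one (div_nonneg (by linarith) hg0.le)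
    rw [le_div_iff₀ hg0] at ha1
    rw [div_lt_iff₀ hg0] at ha2
    rw [div_le_iff₀ hg0] at hb1
    have hb3 : (b : ℝ) * g < 2 * X - H / 2 + g := by
      have := mul_lt_mul_of_pos_right hb2 hg0
      rw [add_mul, div_mul_cancel₀ _ hg0.ne', one_mul] at this
      exact this
    have hbN : b * g ≤ 5 * N := by
      have : (b : ℝ) * g ≤ 5 * N := by linarith
      exact_mod_cast this
    have hab : a ≤ b := by
      have : (a : ℝ) * g ≤ b * g := by linarith
      have := le_of_mul_le_mul_right this hg0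
      exact_mod_cast this
    have h1 := mix_near ha hS (N := N) (Nat.mul_le_mul_right g hab) hL (hQ a b hab (by omega)) hH hJ
      (by omega) hC hNL
    have h2 := (hSand s X H (a * g) (b * g) hH hX0 (Nat.mul_le_mul_right g hab)).1
      (by push_cast; linarith) (by push_cast; linarith)
    have h3 : ∫ x in X..2 * X, MM s x H ^ 2 ≤ mix s (a * g) (b * g) H := h2
    have h4 := (abs_le.1 h1).2
    push_cast at h4
    rw [hD] at h4
    have h5 : c * (H * ((b : ℝ) * g - a * g)) ≤ c * (H * (X + 2 * g)) := by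
      gcongr
      linarith
    have h6 : c * (H * g) ≤ 1 * (H * L) := by gcongr
    nlinarith
  have hlow : c * (H * X) - (6 + 6 * C1) * (H * L) ≤ ∫ x in X..2 * X, MM s x H ^ 2 := by
    rcases le_or_gt (2 * (g : ℝ)) X with h2g | h2g
    · obtain ⟨a, ha'⟩ : ∃ a, a = ⌈(X - H / 2) / g⌉₊ := ⟨_, rfl⟩
      obtain ⟨b, hb⟩ : ∃ b, b = ⌊(2 * X - H / 2) / g⌋₊ := ⟨_, rfl⟩
      have hb1 : (b : ℝ) ≤ (2 * X - H / 2) / g := by
        rw [hb]; exact Nat.floor_le (div_nonneg (by linarith) hg0.le)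
      have hb2 : (2 * X - H / 2) / g < b + 1 := by rw [hb]; exact Nat.lt_floor_add_one _
      have ha1 : (X - H / 2) / g ≤ a := by rw [ha']; exact Nat.le_ceil _
      have ha2 : (a : ℝ) < (X - H / 2) / g + 1 := by
        rw [ha']; exact Nat.ceil_lt_add_one (div_nonneg (by linarith) hg0.le)
      rw [le_div_iff₀ hg0] at hb1
      rw [div_lt_iff₀ hg0] at hb2
      rw [div_le_iff₀ hg0] at ha1
      have ha3 : (a : ℝ) * g < X - H / 2 + g := by
        have := mul_lt_mul_of_pos_right ha2 hg0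
        rw [add_mul, div_mul_cancel₀ _ hg0.ne', one_mul] at this
        exact this
      have hbN : b * g ≤ 5 * N := by
        have : (b : ℝ) * g ≤ 5 * N := by linarith
        exact_mod_cast this
      have hab : a ≤ b := by
        have : (a : ℝ) * g ≤ b * g := by linarith
        have := le_of_mul_le_mul_right this hg0
        exact_mod_cast this
      have h1 := mix_near ha hS (N := N) (Nat.mul_le_mul_right g hab) hL (hQ a b hab (by omega)) hH hJ
        (by omega) hC hNL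
      have h2 := (hSand s X H (a * g) (b * g) hH hX0 (Nat.mul_le_mul_right g hab)).2
        (by push_cast; linarith) (by push_cast; linarith)
      have h3 : mix s (a * g) (b * g) H ≤ ∫ x in X..2 * X, MM s x H ^ 2 := h2
      have h4 := (abs_le.1 h1).1
      push_cast at h4
      rw [hD] at h4
      have h5 : c * (H * (X - 2 * g)) ≤ c * (H * ((b : ℝ) * g - a * g)) :=
        mul_le_mul_of_nonneg_left (mul_le_mul_of_nonneg_left (by linarith) (by linarith)) hc0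
      have h6 : c * (H * g) ≤ 1 * (H * L) := by gcongr
      nlinarith
    · have h0 : 0 ≤ ∫ x in X..2 * X, MM s x H ^ 2 :=
        intervalIntegral.integral_nonneg (by linarith) fun x _ => by positivity
      have h1 : c * (H * X) ≤ 1 * (H * (2 * L)) := by
        gcongr
        linarith
      have h2 : 0 ≤ C1 * (H * L) := by positivity
      nlinarith
  rw [abs_le]
  constructor <;> linarith

end Pool.Agent.K1H1.RM
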